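import Pool.Agent.Helper36.KL.Goals

/-!
# Packet PR of section A of project KV: product estimates in `H^k` of the line
-/

set_option autoImplicit false

namespace Pool.Agent.Helper83.KL

open Set Filter Topology MeasureTheory
open Pool.Agent.Helper36.KL

theorem BB_self (m : ℕ) (u : X) :
    BB m u u = ∑ k ∈ Finset.range (m + 1), ∫ x, iteratedDeriv k u.1 x ^ 2 := by
  rw [BB_apply]
  refine Finset.sum_congr rfl fun k _ => ?_
  simp only [sq]

theorem isq_nonneg (f : ℝ → ℝ) : 0 ≤ ∫ x, f x ^ 2 := integral_nonneg fun x => sq_nonneg _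

theorem BB_nonneg (m : ℕ) (u : X) : 0 ≤ BB m u u := by
  rw [BB_self]
  exact Finset.sum_nonneg fun k _ => isq_nonneg _

theorem le_BB {m i : ℕ} (h : i ≤ m) (u : X) : ∫ x, iteratedDeriv i u.1 x ^ 2 ≤ BB m u u := by
  rw [BB_self]
  exact Finset.single_le_sum (f := fun k => ∫ x, iteratedDeriv k u.1 x ^ 2)
    (fun k _ => isq_nonneg _) (Finset.mem_range.2 (by omega))

theorem sup_le_BB {m i : ℕ} (h : i + 1 ≤ m) (u : X) (x : ℝ) :
    iteratedDeriv i u.1 x ^ 2 ≤ BB m u u := by
  refine (sup_sq_le (iter_mem u.2 i) x).trans ?_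
  rw [iter_iter, Nat.add_comm 1 i, BB_self]
  have hsub : ({i, i + 1} : Finset ℕ) ⊆ Finset.range (m + 1) := by
    intro j hj
    rw [Finset.mem_insert, Finset.mem_singleton] at hj
    rw [Finset.mem_range]
    omega
  have h1 := Finset.sum_le_sum_of_subset_of_nonneg (f := fun k => ∫ x, iteratedDeriv k u.1 x ^ 2)
    hsub (fun k _ _ => isq_nonneg _)
  rw [Finset.sum_pair (by omega)] at h1
  exact h1

/-- the supremum of one factor -/
theorem prod_le {f g : ℝ → ℝ} (hf : f ∈ HI) (hg : g ∈ HI) {M N : ℝ} (hM : ∀ x, f x ^ 2 ≤ M)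
    (hN : ∫ x, g x ^ 2 ≤ N) : ∫ x, (f * g) x ^ 2 ≤ M * N := by
  have hM0 : 0 ≤ M := (sq_nonneg _).trans (hM 0)
  calc ∫ x, (f * g) x ^ 2 ≤ ∫ x, M * g x ^ 2 := by
        refine integral_mono (int_sq (mul_mem hf hg)) ((int_sq hg).const_mul M) fun x => ?_
        show (f x * g x) ^ 2 ≤ M * g x ^ 2
        rw [mul_pow]
        exact mul_le_mul_of_nonneg_right (hM x) (sq_nonneg _)
    _ = M * ∫ x, g x ^ 2 := integral_const_mul _ _
    _ ≤ M * N := mul_le_mul_of_nonneg_left hN hM0

theorem prod_le' {f g : ℝ → ℝ} (hf : f ∈ HI) (hg : g ∈ HI) {M N : ℝ} (hM : ∀ x, g x ^ 2 ≤ M)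
    (hN : ∫ x, f x ^ 2 ≤ N) : ∫ x, (f * g) x ^ 2 ≤ N * M := by
  rw [mul_comm f g, mul_comm N M]
  exact prod_le hg hf hM hN

theorem gen {k : ℕ} {u v : X} {B : ℝ}
    (hB : ∀ i j, i + j ≤ k → ∫ x, (iteratedDeriv i u.1 * iteratedDeriv j v.1) x ^ 2 ≤ B) (l : ℕ) :
    ∀ i j, i + j + l ≤ k →
      ∫ x, iteratedDeriv l (iteratedDeriv i u.1 * iteratedDeriv j v.1) x ^ 2 ≤ 4 ^ l * B := by
  induction l with
  | zero =>
    intro i j h
    rw [iteratedDeriv_zero, pow_zero, one_mul]
    exact hB i j h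
  | succ l ih =>
    intro i j h
    have hu := iter_mem u.2 i
    have hv := iter_mem v.2 j
    have hu1 := iter_mem u.2 (i + 1)
    have hv1 := iter_mem v.2 (j + 1)
    have e : iteratedDeriv (l + 1) (iteratedDeriv i u.1 * iteratedDeriv j v.1) =
        iteratedDeriv l (iteratedDeriv (i + 1) u.1 * iteratedDeriv j v.1) +
        iteratedDeriv l (iteratedDeriv i u.1 * iteratedDeriv (j + 1) v.1) := by
      have h1 : deriv (iteratedDeriv i u.1 * iteratedDeriv j v.1) =
          iteratedDeriv (i + 1) u.1 * iteratedDeriv j v.1 +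
          iteratedDeriv i u.1 * iteratedDeriv (j + 1) v.1 := by
        funext x
        rw [((hasDerivAt_iter u.2.1 i x).mul (hasDerivAt_iter v.2.1 j x)).deriv]
        rfl
      rw [iteratedDeriv_succ', h1, iter_add (mul_mem hu1 hv).1 (mul_mem hu hv1).1]
    have i1 := iter_mem (mul_mem hu1 hv) l
    have i2 := iter_mem (mul_mem hu hv1) l
    have b1 := ih (i + 1) j (by omega)
    have b2 := ih i (j + 1) (by omega)
    rw [e]
    calc ∫ x, (iteratedDeriv l (iteratedDeriv (i + 1) u.1 * iteratedDeriv j v.1) +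
          iteratedDeriv l (iteratedDeriv i u.1 * iteratedDeriv (j + 1) v.1)) x ^ 2
        ≤ ∫ x, (2 * iteratedDeriv l (iteratedDeriv (i + 1) u.1 * iteratedDeriv j v.1) x ^ 2 +
          2 * iteratedDeriv l (iteratedDeriv i u.1 * iteratedDeriv (j + 1) v.1) x ^ 2) := by
          refine integral_mono (int_sq (HI.add_mem i1 i2))
            (((int_sq i1).const_mul 2).add ((int_sq i2).const_mul 2)) fun x => ?_
          simp only [Pi.add_apply]
          nlinarith [sq_nonneg (iteratedDeriv l (iteratedDeriv (i + 1) u.1 * iteratedDeriv j v.1) x -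
            iteratedDeriv l (iteratedDeriv i u.1 * iteratedDeriv (j + 1) v.1) x)]
      _ = 2 * (∫ x, iteratedDeriv l (iteratedDeriv (i + 1) u.1 * iteratedDeriv j v.1) x ^ 2) +
          2 * ∫ x, iteratedDeriv l (iteratedDeriv i u.1 * iteratedDeriv (j + 1) v.1) x ^ 2 := by
          rw [integral_add ((int_sq i1).const_mul 2) ((int_sq i2).const_mul 2),
            integral_const_mul, integral_const_mul]
      _ ≤ 4 ^ (l + 1) * B := by
          rw [pow_succ]
          linarith

theorem mulX_bound {k : ℕ} {u v : X} {B : ℝ}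
    (hB : ∀ i j, i + j ≤ k → ∫ x, (iteratedDeriv i u.1 * iteratedDeriv j v.1) x ^ 2 ≤ B) :
    BB k (mulX u v) (mulX u v) ≤ (∑ l ∈ Finset.range (k + 1), (4 : ℝ) ^ l) * B := by
  rw [BB_self, Finset.sum_mul]
  refine Finset.sum_le_sum fun l hl => ?_
  have h := gen hB l 0 0 (by rw [Finset.mem_range] at hl; omega)
  rw [iteratedDeriv_zero, iteratedDeriv_zero] at h
  exact h

/-- Packet PR. -/
theorem pr : Pool.Agent.Helper36.KL.G_PR := by
  refine ⟨fun k hk => ⟨∑ l ∈ Finset.range (k + 1), (4 : ℝ) ^ l, fun u v => ?_⟩,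
    fun k hk => ⟨∑ l ∈ Finset.range (k + 1), (4 : ℝ) ^ l, fun u v => ?_⟩⟩
  · refine mulX_bound fun i j hij => ?_
    by_cases h : i + 1 ≤ k
    · exact prod_le (iter_mem u.2 i) (iter_mem v.2 j) (sup_le_BB h u) (le_BB (by omega) v)
    · exact prod_le' (iter_mem u.2 i) (iter_mem v.2 j) (sup_le_BB (by omega) v)
        (le_BB (by omega) u)
  · refine mulX_bound fun i j hij => ?_
    have n1 := mul_nonneg (BB_nonneg k u) (BB_nonneg (k - 1) v)
    have n2 := mul_nonneg (BB_nonneg (k - 1) u) (BB_nonneg k v)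
    by_cases h : i + 2 ≤ k
    · have h1 := prod_le (iter_mem u.2 i) (iter_mem v.2 j)
        (sup_le_BB (m := k - 1) (by omega) u) (le_BB (m := k) (by omega) v)
      linarith
    · by_cases h' : j + 2 ≤ k
      · have h1 := prod_le' (iter_mem u.2 i) (iter_mem v.2 j)
          (sup_le_BB (m := k - 1) (by omega) v) (le_BB (m := k) (by omega) u)
        linarith
      · have h1 := prod_le (iter_mem u.2 i) (iter_mem v.2 j)
          (sup_le_BB (m := k) (by omega) u) (le_BB (m := k - 1) (by omega) v)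
        linarith

end Pool.Agent.Helper83.KL
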